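import Pool.Agent.H77.RZ.Stmts

/-!
# The final statement: a positive proportion of the curves has rank zero
-/

set_option autoImplicit false

namespace Pool.RZ

open Polynomial Matrix Pool.AVR Pool.AVS

theorem fi_thm (hAV : AVStmt) (hCB : CBStmt) (hKD : KDStmt) (hTWF : TWFStmt)
    (hCNF : Pool.AVR.CNFStmt) (hCN : CNStmt) : FIStmt := by
  intro F _ _ h2
  classical
  obtain ⟨⟨δ, hδ, N1, hN1⟩, hav⟩ := hAV F h2
  obtain ⟨N2, hN2⟩ := hav (1 / 4) (by norm_num)
  have hq : (0 : ℝ) < (Nat.card F : ℝ) := by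
    exact_mod_cast Nat.card_pos
  set q : ℝ := (Nat.card F : ℝ) with hqdef
  refine ⟨δ / (16 * q ^ 12), by positivity, max N1 N2 + 2, fun n hn => ?_⟩
  obtain ⟨m, rfl⟩ : ∃ m, n = m + 1 := ⟨n - 1, by omega⟩
  have hm1 : N1 ≤ m := by have := le_max_left N1 N2; omega
  have hm2 : N2 ≤ m := by have := le_max_right N1 N2; omega
  have hm : 1 ≤ m := by omega
  obtain ⟨hFam, hcard, -⟩ := hCNF F h2 (m + 1) (by omega)
  have hEll : (Ell F (m + 1)).Finite := hFam.subset fun f hf => hf.1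
  have hEc : ((Ell F (m + 1)).ncard : ℝ) ≤ q ^ (12 * (m + 1) + 3) := by
    have h1 : (Ell F (m + 1)).ncard ≤ (Fam F (m + 1)).ncard :=
      Set.ncard_le_ncard (fun f hf => hf.1) hFam
    rw [hcard] at h1
    have h3 : ((Ell F (m + 1)).ncard : ℝ) ≤ ((Nat.card F ^ (12 * (m + 1) + 3) : ℕ) : ℝ) := by
      exact_mod_cast h1
    rw [Nat.cast_pow] at h3
    exact h3
  set Z : Set (F[X] × F[X] × F[X]) := {f ∈ Ell F (m + 1) | rk f = 0} with hZ
  have hZf : Z.Finite := hEll.subset fun f hf => hf.1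
  obtain ⟨hFm, hsum⟩ := hN2 m hm2
  set T : Finset (F[X] × F[X] × F[X]) := hFm.toFinset with hT
  have hTc : (Fm F m).ncard = T.card := Set.ncard_eq_toFinset_card _ hFm
  have hmem : ∀ f ∈ T, f ∈ Fm F m := fun f hf => hFm.mem_toFinset.1 hf
  -- the elements with `STR f ≠ ∅`
  have c1 : ((T.filter fun f => ¬ STR f = ∅).card : ℝ) ≤ 3 / 4 * T.card := by
    rw [finsum_mem_eq_finite_toFinset_sum _ hFm, hTc] at hsum
    have h3 : ((T.filter fun f => ¬ STR f = ∅).card : ℝ) ≤ ∑ f ∈ T, ((STR f).ncard : ℝ) := by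
      rw [Finset.card_filter, Nat.cast_sum]
      refine Finset.sum_le_sum fun f hf => ?_
      by_cases h : STR f = ∅
      · rw [if_neg (not_not.2 h)]
        simp
      · rw [if_pos h]
        have h4 : 0 < (STR f).ncard :=
          (Set.ncard_pos (hCN F h2 m f hm (hmem f hf)).1).2 (Set.nonempty_iff_ne_empty.2 h)
        exact_mod_cast h4
    refine h3.trans (hsum.trans (le_of_eq ?_))
    norm_num
  have c2 : (T.filter fun f => STR f = ∅).card + (T.filter fun f => ¬ STR f = ∅).card =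
      T.card := Finset.card_filter_add_card_filter_not _
  have c2' : ((T.filter fun f => STR f = ∅).card : ℝ) +
      ((T.filter fun f => ¬ STR f = ∅).card : ℝ) = T.card := by exact_mod_cast c2
  -- the four twists
  set D : Finset F[X] := {1, pc 0, pc 1, pc 0 * pc 1} with hD
  have hD4 : D.card ≤ 4 := Finset.card_le_four
  have hD0 : ∀ d ∈ D, d ≠ 0 := by
    intro d hd
    have h0 : pc (0 : F) ≠ 0 := X_sub_C_ne_zero 0
    have h1 : pc (1 : F) ≠ 0 := X_sub_C_ne_zero 1
    simp only [hD, Finset.mem_insert, Finset.mem_singleton] at hd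
    rcases hd with rfl | rfl | rfl | rfl
    · exact one_ne_zero
    · exact h0
    · exact h1
    · exact mul_ne_zero h0 h1
  obtain ⟨htw, hinj⟩ := hTWF F h2 m hm
  have c3 : (T.filter fun f => STR f = ∅) ⊆ D.biUnion fun d => T.filter fun f => tw d f ∈ Z := by
    intro f hf
    obtain ⟨hf1, hf2⟩ := Finset.mem_filter.1 hf
    obtain ⟨hirr, hsep, -, hell⟩ := htw f (hmem f hf1)
    obtain ⟨d, hd, hd2⟩ := hCB F h2 m f (hmem f hf1) hm hf2
    obtain ⟨hd0, hd3⟩ := hell d hd
    have hk := (hKD F h2 f d hd0 hirr hsep hd2).2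
    refine Finset.mem_biUnion.2 ⟨d, ?_, Finset.mem_filter.2 ⟨hf1, hd3, hk⟩⟩
    simp only [Set.mem_insert_iff, Set.mem_singleton_iff] at hd
    simp only [hD, Finset.mem_insert, Finset.mem_singleton]
    exact hd
  have c4 : ∀ d ∈ D, (T.filter fun f => tw d f ∈ Z).card ≤ Z.ncard := by
    intro d hd
    rw [Set.ncard_eq_toFinset_card _ hZf]
    refine Finset.card_le_card_of_injOn (tw d) ?_ ((hinj d (hD0 d hd)).injOn)
    intro f hf
    exact hZf.mem_toFinset.2 (Finset.mem_filter.1 hf).2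
  have c5 : (T.filter fun f => STR f = ∅).card ≤ 4 * Z.ncard := by
    calc (T.filter fun f => STR f = ∅).card
        ≤ (D.biUnion fun d => T.filter fun f => tw d f ∈ Z).card := Finset.card_le_card c3
      _ ≤ D.card * Z.ncard := Finset.card_biUnion_le_card_mul _ _ _ c4
      _ ≤ 4 * Z.ncard := Nat.mul_le_mul_right _ hD4
  have c5' : ((T.filter fun f => STR f = ∅).card : ℝ) ≤ 4 * (Z.ncard : ℝ) := by
    exact_mod_cast c5
  have c6 := hN1 m hm1
  rw [hTc] at c6
  have c7 : δ * q ^ (12 * m + 3) ≤ 16 * (Z.ncard : ℝ) := by linarith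
  have c8 : δ / (16 * q ^ 12) * q ^ (12 * (m + 1) + 3) ≤ (Z.ncard : ℝ) := by
    have e : δ / (16 * q ^ 12) * q ^ (12 * (m + 1) + 3) = δ * q ^ (12 * m + 3) / 16 := by
      have e1 : q ^ (12 * (m + 1) + 3) = q ^ 12 * q ^ (12 * m + 3) := by
        rw [← pow_add]
        congr 1
        ring
      rw [e1]
      field_simp
    rw [e]
    linarith
  refine ⟨hEll, ?_, c8⟩
  exact (mul_le_mul_of_nonneg_left hEc (by positivity)).trans c8

end Pool.RZ
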