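import Pool.Agent.H77.RZ.Stmts
import Pool.Agent.H33.AVS.NGH

/-!
# The lattice attached to a unit class times a singular class
-/

set_option autoImplicit false

namespace Pool.RZ

open Polynomial Matrix Pool.AVR Pool.AVS

namespace PL

variable {K : Type} [Field K]

theorem tau_congr {a b c : K} {p q : K[X]}
    (h : AdjoinRoot.mk (cub a b c) p = AdjoinRoot.mk (cub a b c) q) :
    tau a b c p = tau a b c q := by
  rw [← COR.T_mk, ← COR.T_mk, h]

theorem tau_C_mul (a b c x : K) (p : K[X]) : tau a b c (C x * p) = x * tau a b c p := by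
  rw [← COR.T_mk, ← COR.T_mk, map_mul, AdjoinRoot.mk_C]
  have h : (AdjoinRoot.of (cub a b c)) x * AdjoinRoot.mk (cub a b c) p =
      x • AdjoinRoot.mk (cub a b c) p := by
    rw [Algebra.smul_def]
    rfl
  rw [h, map_smul, smul_eq_mul]

theorem repr_quad (a b c x0 x1 x2 : K) (k : Fin 3) :
    (NGH.pb a b c).repr (AdjoinRoot.mk (cub a b c) (C x0 + C x1 * X + C x2 * X ^ 2)) k =
      ![x0, x1, x2] k := by
  have h : AdjoinRoot.mk (cub a b c) (C x0 + C x1 * X + C x2 * X ^ 2) =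
      ∑ k, (![x0, x1, x2] : Fin 3 → K) k • NGH.pb a b c k := by
    rw [Fin.sum_univ_three, NGH.pb_apply, NGH.pb_apply, NGH.pb_apply]
    simp only [Algebra.smul_def, map_add, map_mul, AdjoinRoot.mk_C]
    simp
  rw [h, Module.Basis.repr_sum_self]

theorem det_gm_mul (a b c : K) (r : K[X]) (e : Fin 3 → K[X]) :
    (NGH.gm a b c fun i => r * e i).det =
      Algebra.norm K (AdjoinRoot.mk (cub a b c) r) * (NGH.gm a b c e).det := by
  rw [Algebra.norm_eq_matrix_det (NGH.pb a b c), ← Matrix.det_mul]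
  congr 1
  ext k i
  have h := congrFun (Algebra.leftMulMatrix_mulVec_repr (NGH.pb a b c)
    (AdjoinRoot.mk (cub a b c) r) (AdjoinRoot.mk (cub a b c) (e i))) k
  rw [Matrix.mul_apply]
  unfold NGH.gm
  simp only [Matrix.of_apply]
  rw [map_mul, ← h]
  rfl

theorem core (a b c : K) (hirr : Irreducible (cub a b c)) (h h' s s' p : K[X])
    (w u D v : K) (i : ℕ) (hs : cub a b c ∣ h * s ^ 2 - p)
    (hp : AdjoinRoot.mk (cub a b c) p ≠ 0)
    (hs' : cub a b c ∣ h' * s' ^ 2 - C w * (C u - C D * X)) (hw : w ≠ 0) (hD : D ≠ 0)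
    (hg : 3 * u ^ 2 + 2 * a * u * D + b * D ^ 2 ≠ 0)
    (hΦ : u ^ 3 + a * u ^ 2 * D + b * u * D ^ 2 + c * D ^ 3 = w ^ (2 * i + 1) * v ^ 2) :
    ∃ g : Matrix (Fin 3) (Fin 3) K, g.det ≠ 0 ∧
      (gᵀ * gr0 a b c (h * h') * g) 0 0 = v ^ 2 * tau a b c (p *
        (C (D ^ 2) * X ^ 2 + C (u * D + a * D ^ 2) * X +
          C (u ^ 2 + a * u * D + b * D ^ 2))) ∧
      (∀ j : Fin 2, (gᵀ * gr0 a b c (h * h') * g) 0 j.succ = w ^ (i + 1) * v ^ 2 *
        tau a b c (p * (C u - C D * X) * X ^ (j : ℕ))) ∧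
      ∀ j k : Fin 2, (gᵀ * gr0 a b c (h * h') * g) j.succ k.succ = w *
        tau a b c (p * (C u - C D * X) ^ 3 * X ^ ((j : ℕ) + (k : ℕ))) := by
  have hfact : Fact (Irreducible (cub a b c)) := ⟨hirr⟩
  set μ := AdjoinRoot.mk (cub a b c) with hμ
  set β : K[X] := C u - C D * X with hβ
  set βs : K[X] := C (D ^ 2) * X ^ 2 + C (u * D + a * D ^ 2) * X +
    C (u ^ 2 + a * u * D + b * D ^ 2) with hβs
  have e1 : μ h * μ s ^ 2 = μ p := by
    rw [← map_pow, ← map_mul, ← sub_eq_zero, ← map_sub]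
    exact AdjoinRoot.mk_eq_zero.2 hs
  have e2 : μ h' * μ s' ^ 2 = μ (C w) * μ β := by
    rw [← map_pow, ← map_mul, ← map_mul, ← sub_eq_zero, ← map_sub]
    exact AdjoinRoot.mk_eq_zero.2 hs'
  have e3 : μ β * μ βs = μ (C w) ^ (2 * i + 1) * μ (C v) ^ 2 := by
    have h1 : μ (β * βs - C (w ^ (2 * i + 1) * v ^ 2)) = 0 := by
      rw [← hΦ]
      refine AdjoinRoot.mk_eq_zero.2 ⟨-C (D ^ 3), ?_⟩
      simp only [hβ, hβs, cub, C_add, C_mul, C_pow]
      ring
    rw [map_sub, sub_eq_zero] at h1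
    rw [← map_mul μ, h1, C_mul, C_pow, C_pow, map_mul μ, map_pow μ, map_pow μ]
  have hβ0 : μ β ≠ 0 := by
    refine AdjoinRoot.mk_ne_zero_of_degree_lt (COR.cub_monic a b c) ?_ ?_
    · intro h0
      have := congrArg (fun q => q.coeff 1) h0
      simp [hβ] at this
      exact hD this
    · rw [COR.cub_degree]
      refine lt_of_le_of_lt (b := ((1 : ℕ) : WithBot ℕ)) ?_ (by norm_num)
      rw [hβ]
      compute_degree
      norm_num
  have hw0 : μ (C w) ≠ 0 := by
    intro h0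
    rw [hμ, AdjoinRoot.mk_C, map_eq_zero] at h0
    exact hw h0
  have hss : μ (s * s') ≠ 0 := by
    rw [map_mul]
    refine mul_ne_zero ?_ ?_
    · intro h0
      rw [h0] at e1
      refine hp ?_
      rw [← e1]
      ring
    · intro h0
      rw [h0] at e2
      refine mul_ne_zero hw0 hβ0 ?_
      rw [← e2]
      ring
  have hnorm : Algebra.norm K (μ (s * s')) ≠ 0 :=
    ((isUnit_iff_ne_zero.2 hss).map (Algebra.norm K)).ne_zero
  set e' : Fin 3 → K[X] := ![C ((w ^ (i + 1))⁻¹) * βs, β, β * X] with he'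
  have hdet' : (NGH.gm a b c e').det =
      (w ^ (i + 1))⁻¹ * (D ^ 2 * (3 * u ^ 2 + 2 * a * u * D + b * D ^ 2)) := by
    have h0 : e' 0 = C ((w ^ (i + 1))⁻¹ * (u ^ 2 + a * u * D + b * D ^ 2)) +
        C ((w ^ (i + 1))⁻¹ * (u * D + a * D ^ 2)) * X +
        C ((w ^ (i + 1))⁻¹ * D ^ 2) * X ^ 2 := by
      simp only [he', hβs, Matrix.cons_val_zero, C_mul]
      ring
    have h1 : e' 1 = C u + C (-D) * X + C 0 * X ^ 2 := by
      change β = _
      rw [hβ, C_neg, C_0]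
      ring
    have h2 : e' 2 = C 0 + C u * X + C (-D) * X ^ 2 := by
      change β * X = _
      rw [hβ, C_neg, C_0]
      ring
    rw [Matrix.det_fin_three]
    unfold NGH.gm
    simp only [Matrix.of_apply]
    rw [h0, h1, h2]
    simp only [repr_quad]
    simp
    ring
  have hdet : (NGH.gm a b c fun j => (s * s') * e' j).det ≠ 0 := by
    rw [det_gm_mul, hdet']
    exact mul_ne_zero hnorm (mul_ne_zero (inv_ne_zero (pow_ne_zero _ hw))
      (mul_ne_zero (pow_ne_zero _ hD) hg))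
  have hgram : ∀ j k, ((NGH.gm a b c fun j => (s * s') * e' j)ᵀ * gr0 a b c (h * h') *
      NGH.gm a b c fun j => (s * s') * e' j) j k =
      tau a b c ((s * s') * e' j * ((s * s') * e' k) * (h * h')) := by
    intro j k
    rw [← NGH.gram_eq]
    rfl
  have hμe : ∀ j k, μ ((s * s') * e' j * ((s * s') * e' k) * (h * h')) =
      μ p * (μ (C w) * μ β) * (μ (e' j) * μ (e' k)) := by
    intro j k
    simp only [map_mul μ]
    rw [← e1, ← e2]
    ring
  have hCw : μ (C ((w ^ (i + 1))⁻¹)) * μ (C w) ^ (i + 1) = 1 := by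
    rw [← map_pow, ← map_mul, ← C_pow, ← C_mul, inv_mul_cancel₀ (pow_ne_zero _ hw), C_1, map_one]
  refine ⟨_, hdet, ?_, ?_, ?_⟩
  · rw [hgram, ← tau_C_mul]
    refine tau_congr ?_
    rw [← hμ, hμe]
    have h0 : e' 0 = C ((w ^ (i + 1))⁻¹) * βs := rfl
    rw [h0]
    simp only [map_mul μ, C_pow, map_pow μ]
    have h3 : μ (C w) ^ (2 * i + 1) * μ (C w) = (μ (C w) ^ (i + 1)) ^ 2 := by ring
    linear_combination (μ p * μ (C w) * μ (C ((w ^ (i + 1))⁻¹)) ^ 2 * μ βs) * e3 +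
      (μ p * μ (C v) ^ 2 * μ βs * μ (C ((w ^ (i + 1))⁻¹)) ^ 2) * h3 +
      (μ p * μ (C v) ^ 2 * μ βs * (μ (C ((w ^ (i + 1))⁻¹)) * μ (C w) ^ (i + 1) + 1)) * hCw
  · intro j
    rw [hgram, ← tau_C_mul]
    refine tau_congr ?_
    rw [← hμ, hμe]
    have h0 : e' 0 = C ((w ^ (i + 1))⁻¹) * βs := rfl
    have h1 : e' j.succ = β * X ^ (j : ℕ) := by
      fin_cases j <;> simp [he']
    rw [h0, h1]
    simp only [map_mul μ, C_mul, C_pow, map_pow μ]
    linear_combination (μ p * μ (C w) * μ (C ((w ^ (i + 1))⁻¹)) * μ β * μ X ^ (j : ℕ)) * e3 +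
      (μ p * μ (C v) ^ 2 * μ β * μ X ^ (j : ℕ) * μ (C w) ^ (i + 1)) * hCw
  · intro j k
    rw [hgram, ← tau_C_mul]
    refine tau_congr ?_
    rw [← hμ, hμe]
    have h1 : ∀ j : Fin 2, e' j.succ = β * X ^ (j : ℕ) := by
      intro j
      fin_cases j <;> simp [he']
    rw [h1, h1]
    simp only [map_mul μ, map_pow μ]
    ring

/-- A unit modulo `(t - c, f)` is not zero modulo `f`. -/
theorem mk_ne_zero {F : Type} [Field F] (f : F[X] × F[X] × F[X]) (c : F) (p : F[X][X])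
    (h : UnP (pc c) f p) : AdjoinRoot.mk (cubK f) (lf p) ≠ 0 := by
  intro h0
  obtain ⟨p', r, h1⟩ := h
  have hK : cubK f = lf (cubP f) := by
    unfold cubK cubP lf cub
    simp
  have h2 : cubK f ∣ lf p := AdjoinRoot.mk_eq_zero.1 h0
  rw [hK] at h2
  have hmon : (cubP f).Monic := by
    unfold cubP cub
    monicity!
  have h3 : cubP f ∣ p :=
    (Polynomial.map_dvd_map _ (IsFractionRing.injective F[X] (RatFunc F)) hmon).1 h2
  have h4 : cubP f ∣ 1 + C (pc c) * r := by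
    have := dvd_sub (h3.mul_right p') h1
    have e : p * p' - (p * p' - 1 - C (pc c) * r) = 1 + C (pc c) * r := by ring
    rwa [e] at this
  have h5 := Polynomial.map_dvd (evalRingHom c) h4
  have h6 : (1 + C (pc c) * r).map (evalRingHom c) = 1 := by
    simp [Polynomial.map_add, Polynomial.map_mul, pc]
  rw [h6] at h5
  have h8 : ((cubP f).map (evalRingHom c)).natDegree = 3 := by
    rw [hmon.natDegree_map]
    unfold cubP cub
    compute_degree!
  have h9 := (hmon.map (evalRingHom c)).eq_one_of_isUnit (isUnit_of_dvd_one h5)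
  rw [h9] at h8
  simp at h8

end PL

theorem pl_thm : PLStmt := by
  intro F _ f c h h' s s' p u D v i hirr hs hp hs' hD hv hg hΦ
  have hinj : Function.Injective (algebraMap F[X] (RatFunc F)) :=
    IsFractionRing.injective F[X] (RatFunc F)
  have hne : ∀ x : F[X], ¬ pc c ∣ x → rf x ≠ 0 := by
    intro x hx h0
    rw [map_eq_zero_iff _ hinj] at h0
    exact hx (h0 ▸ dvd_zero _)
  have hw : rf (pc c) ≠ 0 := by
    intro h0
    rw [map_eq_zero_iff _ hinj] at h0
    exact X_sub_C_ne_zero c h0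
  have hs'' : cub (kf f).1 (kf f).2.1 (kf f).2.2 ∣
      h' * s' ^ 2 - C (rf (pc c)) * (C (rf u) - C (rf D) * X) := by
    have e : lf (C (pc c) * (C u - C D * X)) = C (rf (pc c)) * (C (rf u) - C (rf D) * X) := by
      simp [lf, rf]
    rw [← e]
    exact hs'
  have hg' : 3 * rf u ^ 2 + 2 * (kf f).1 * rf u * rf D + (kf f).2.1 * rf D ^ 2 ≠ 0 := by
    have e : 3 * rf u ^ 2 + 2 * (kf f).1 * rf u * rf D + (kf f).2.1 * rf D ^ 2 =
        rf (3 * u ^ 2 + 2 * f.1 * u * D + f.2.1 * D ^ 2) := by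
      have e3 : algebraMap F[X] (RatFunc F) 3 = 3 := map_ofNat _ 3
      have e2 : algebraMap F[X] (RatFunc F) 2 = 2 := map_ofNat _ 2
      simp only [rf, kf, map_add, map_mul, map_pow, e2, e3]
    rw [e]
    exact hne _ hg
  have hΦ' : rf u ^ 3 + (kf f).1 * rf u ^ 2 * rf D + (kf f).2.1 * rf u * rf D ^ 2 +
      (kf f).2.2 * rf D ^ 3 = rf (pc c) ^ (2 * i + 1) * rf v ^ 2 := by
    have := congrArg rf hΦ
    simpa [rf, kf] using this
  obtain ⟨g, g1, g2, g3, g4⟩ := PL.core (kf f).1 (kf f).2.1 (kf f).2.2 hirr h h' s s' (lf p)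
    (rf (pc c)) (rf u) (rf D) (rf v) i hs (PL.mk_ne_zero f c p hp) hs'' hw (hne D hD) hg' hΦ'
  refine ⟨g, g1, ?_, ?_, ?_⟩
  · rw [g2]
    congr 2
    simp [lf, rf, kf]
  · intro j
    rw [g3]
    congr 2
    simp [lf, rf]
  · intro j k
    rw [g4]
    congr 2
    simp [lf, rf]

end Pool.RZ
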