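import Pool.Agent.H57.RZ.PL

/-!
# Norms of the classes of points of the twists
-/

set_option autoImplicit false

namespace Pool.RZ

open Polynomial Matrix Pool.AVR Pool.AVS

namespace PN

variable {K : Type} [Field K]

theorem norm_lin (a b c x δ : K) :
    Algebra.norm K (AdjoinRoot.mk (cub a b c) (C x - C δ * X)) =
      x ^ 3 + δ * a * x ^ 2 + δ ^ 2 * b * x + δ ^ 3 * c := by
  have h1 := PL.det_gm_mul a b c (C x - C δ * X) (fun j => X ^ (j : ℕ))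
  have q0 : ∀ k, NGH.gm a b c (fun j => X ^ (j : ℕ)) k 0 = ![1, 0, 0] k := by
    intro k
    unfold NGH.gm
    rw [Matrix.of_apply, ← PL.repr_quad a b c 1 0 0]
    simp
  have q1 : ∀ k, NGH.gm a b c (fun j => X ^ (j : ℕ)) k 1 = ![0, 1, 0] k := by
    intro k
    unfold NGH.gm
    rw [Matrix.of_apply, ← PL.repr_quad a b c 0 1 0]
    simp
  have q2 : ∀ k, NGH.gm a b c (fun j => X ^ (j : ℕ)) k 2 = ![0, 0, 1] k := by
    intro k
    unfold NGH.gm
    rw [Matrix.of_apply, ← PL.repr_quad a b c 0 0 1]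
    simp
  have r0 : ∀ k, NGH.gm a b c (fun j => (C x - C δ * X) * X ^ (j : ℕ)) k 0 = ![x, -δ, 0] k := by
    intro k
    unfold NGH.gm
    rw [Matrix.of_apply, ← PL.repr_quad a b c x (-δ) 0]
    congr 3
    simp
    ring
  have r1 : ∀ k, NGH.gm a b c (fun j => (C x - C δ * X) * X ^ (j : ℕ)) k 1 = ![0, x, -δ] k := by
    intro k
    unfold NGH.gm
    rw [Matrix.of_apply, ← PL.repr_quad a b c 0 x (-δ)]
    congr 3
    simp
    ring
  have r2 : ∀ k, NGH.gm a b c (fun j => (C x - C δ * X) * X ^ (j : ℕ)) k 2 =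
      ![δ * c, δ * b, x + δ * a] k := by
    intro k
    unfold NGH.gm
    rw [Matrix.of_apply, ← PL.repr_quad a b c (δ * c) (δ * b) (x + δ * a)]
    congr 2
    rw [← sub_eq_zero, ← map_sub]
    refine AdjoinRoot.mk_eq_zero.2 ⟨-C δ, ?_⟩
    simp [cub]
    ring
  rw [Matrix.det_fin_three, Matrix.det_fin_three] at h1
  simp only [q0, q1, q2, r0, r1, r2] at h1
  generalize Algebra.norm K (AdjoinRoot.mk (cub a b c) (C x - C δ * X)) = N at h1 ⊢
  simp at h1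
  rw [← h1]
  ring

theorem coprime_lin (a b c x δ y : K) (hy : y ≠ 0)
    (h : y ^ 2 = x ^ 3 + δ * a * x ^ 2 + δ ^ 2 * b * x + δ ^ 3 * c) :
    IsCoprime (C x - C δ * X) (cub a b c) := by
  refine ⟨C ((y ^ 2)⁻¹) * (C (δ ^ 2) * X ^ 2 + C (x * δ + a * δ ^ 2) * X +
    C (x ^ 2 + a * x * δ + b * δ ^ 2)), C ((y ^ 2)⁻¹) * C (δ ^ 3), ?_⟩
  have h1 : C ((y ^ 2)⁻¹) * C (y ^ 2) = (1 : K[X]) := by
    rw [← C_mul, inv_mul_cancel₀ (pow_ne_zero 2 hy), C_1]
  rw [← h1, h]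
  simp only [cub, C_add, C_mul, C_pow]
  ring

end PN

theorem pn_thm : PNStmt := by
  intro F _ f d x y h
  have h' : y ^ 2 = x ^ 3 + rf d * (kf f).1 * x ^ 2 + rf d ^ 2 * (kf f).2.1 * x +
      rf d ^ 3 * (kf f).2.2 := by
    have h0 : y ^ 2 = x ^ 3 + (kf (tw d f)).1 * x ^ 2 + (kf (tw d f)).2.1 * x +
      (kf (tw d f)).2.2 := h
    rw [h0]
    simp only [kf, tw, rf, map_mul, map_pow]
  refine ⟨?_, fun hy => PN.coprime_lin _ _ _ x (rf d) y hy h'⟩
  rw [h']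
  exact PN.norm_lin (kf f).1 (kf f).2.1 (kf f).2.2 x (rf d)

end Pool.RZ
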